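import Pool.Agent.R745.Tri.Arith

/-!
# Representations by `T_x + T_y + 6 T_z`

A natural number `n` is of the form `x(x-1)/2 + y(y-1)/2 + 6 z(z-1)/2` if and only if
`n ≢ 2·3^(2r-1) - 1 (mod 3^(2r))` for all `r ≥ 1`.
-/

set_option autoImplicit false

namespace Pool.Agent.Results.MP_fb76f8_nt.TriangularOneOneSix

open Pool.Agent.R745.Tri

/-- `n` is represented by `T_x + T_y + 6 T_z` (all divisions by `2` are exact). -/
def Represented (n : ℕ) : Prop :=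
  ∃ x y z : ℤ, (n : ℤ) = x * (x - 1) / 2 + y * (y - 1) / 2 + 6 * (z * (z - 1) / 2)

/-- `n` is admissible. -/
def Admissible (n : ℕ) : Prop :=
  ∀ r : ℕ, 1 ≤ r → ¬ (n : ℤ) ≡ 2 * 3 ^ (2 * r - 1) - 1 [ZMOD 3 ^ (2 * r)]

theorem pow_aux (k : ℕ) : (3 : ℤ) ^ (2 * (k + 1) - 1) = 3 * 9 ^ k ∧
    (3 : ℤ) ^ (2 * (k + 1)) = 9 * 9 ^ k := by
  have h1 : 2 * (k + 1) - 1 = 2 * k + 1 := by omega
  have h2 : (9 : ℤ) = 3 ^ 2 := by norm_num
  constructor
  · rw [h1, pow_succ, pow_mul]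
    norm_num
    ring
  · rw [mul_add, pow_add, pow_mul]
    norm_num
    ring

theorem adm_iff (n : ℕ) : Admissible n ↔ ¬ Exc (n + 1) := by
  constructor
  · rintro h ⟨k, t, hkt⟩
    apply h (k + 1) (by omega)
    obtain ⟨h1, h2⟩ := pow_aux k
    rw [h1, h2]
    apply Int.ModEq.symm
    rw [Int.modEq_iff_dvd]
    have h3 : (n : ℤ) + 1 = 9 ^ k * (9 * t + 6) := by exact_mod_cast hkt
    exact ⟨t, by linear_combination h3⟩
  · intro h r hr hmod
    obtain ⟨k, rfl⟩ : ∃ k, r = k + 1 := ⟨r - 1, by omega⟩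
    obtain ⟨h1, h2⟩ := pow_aux k
    rw [h1, h2] at hmod
    obtain ⟨t, ht⟩ := (Int.modEq_iff_dvd.1 hmod.symm)
    have h3 : (n : ℤ) + 1 = 9 ^ k * (9 * t + 6) := by linear_combination ht
    have h4 : 0 ≤ t := by
      have h5 : (0 : ℤ) < 9 ^ k * (9 * t + 6) := by rw [← h3]; positivity
      have h6 : 0 < 9 * t + 6 := (mul_pos_iff_of_pos_left (by positivity)).1 h5
      omega
    obtain ⟨s, rfl⟩ := Int.eq_ofNat_of_zero_le h4
    exact h ⟨k, s, by exact_mod_cast h3⟩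

theorem three_dvd {X Y : ℤ} (h : (X ^ 2 + Y ^ 2) % 3 = 0) : X % 3 = 0 ∧ Y % 3 = 0 := by
  have h1 : X % 3 = 0 ∨ X % 3 = 1 ∨ X % 3 = 2 := by omega
  have h2 : Y % 3 = 0 ∨ Y % 3 = 1 ∨ Y % 3 = 2 := by omega
  rcases h1 with h1 | h1 | h1 <;> rcases h2 with h2 | h2 | h2 <;>
    simp [pow_two, Int.add_emod, Int.mul_emod, h1, h2] at h ⊢

theorem not_rep (k : ℕ) : ∀ X Y Z s : ℤ, X ^ 2 + Y ^ 2 + 6 * Z ^ 2 ≠ 9 ^ k * (9 * s + 3) := by
  induction k with
  | zero =>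
    intro X Y Z s h
    rw [pow_zero, one_mul] at h
    obtain ⟨h1, h2⟩ := three_dvd (X := X) (Y := Y) (by omega)
    obtain ⟨X', rfl⟩ : ∃ X', X = 3 * X' := ⟨X / 3, by omega⟩
    obtain ⟨Y', rfl⟩ : ∃ Y', Y = 3 * Y' := ⟨Y / 3, by omega⟩
    have h3 : 2 * Z ^ 2 = 3 * (s - X' ^ 2 - Y' ^ 2) + 1 := by linarith
    have h4 : Z % 3 = 0 ∨ Z % 3 = 1 ∨ Z % 3 = 2 := by omega
    have h5 : (Z ^ 2) % 3 = 0 ∨ (Z ^ 2) % 3 = 1 := by
      rcases h4 with h4 | h4 | h4 <;> simp [pow_two, Int.mul_emod, h4]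
    omega
  | succ k ih =>
    intro X Y Z s h
    have h0 : (9 : ℤ) ^ (k + 1) * (9 * s + 3) = 9 * (9 ^ k * (9 * s + 3)) := by ring
    rw [h0] at h
    set m := (9 : ℤ) ^ k * (9 * s + 3) with hm
    obtain ⟨h1, h2⟩ := three_dvd (X := X) (Y := Y) (by omega)
    obtain ⟨X', rfl⟩ : ∃ X', X = 3 * X' := ⟨X / 3, by omega⟩
    obtain ⟨Y', rfl⟩ : ∃ Y', Y = 3 * Y' := ⟨Y / 3, by omega⟩
    have h3 : 2 * Z ^ 2 = 3 * (m - X' ^ 2 - Y' ^ 2) := by linarith
    have h4 : Z % 3 = 0 ∨ Z % 3 = 1 ∨ Z % 3 = 2 := by omega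
    have h5 : Z % 3 = 0 := by
      rcases h4 with h4 | h4 | h4
      · exact h4
      · have : (Z ^ 2) % 3 = 1 := by simp [pow_two, Int.mul_emod, h4]
        omega
      · have : (Z ^ 2) % 3 = 1 := by simp [pow_two, Int.mul_emod, h4]
        omega
    obtain ⟨Z', rfl⟩ : ∃ Z', Z = 3 * Z' := ⟨Z / 3, by omega⟩
    apply ih X' Y' Z' s
    rw [← hm]
    linarith

theorem tri (x : ℤ) : x * (x - 1) = 2 * (x * (x - 1) / 2) := by
  have h := Int.even_mul_pred_self x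
  obtain ⟨t, ht⟩ := h
  rw [ht]
  omega

/-- `n` is a sum of two triangular numbers and six times a triangular number if and only if it is
admissible. -/
theorem result : ∀ n : ℕ, Represented n ↔ Admissible n := by
  intro n
  rw [adm_iff]
  constructor
  · rintro ⟨x, y, z, h⟩ ⟨k, t, hkt⟩
    have hx := tri x
    have hy := tri y
    have hz := tri z
    have h3 : (n : ℤ) + 1 = 9 ^ k * (9 * t + 6) := by exact_mod_cast hkt
    apply not_rep k (2 * x - 1) (2 * y - 1) (2 * z - 1) (8 * t + 5)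
    linear_combination 4 * hx + 4 * hy + 24 * hz + 8 * h3 - 8 * h
  · intro hE
    obtain ⟨u, v, z, hz, h⟩ := main_rep (N := n + 1) (by omega) hE
    push_cast at h
    have hpar : (u + v) % 2 = 1 := by
      obtain ⟨w, rfl⟩ : ∃ w, z = 2 * w + 1 := ⟨z / 2, by omega⟩
      rcases Int.emod_two_eq_zero_or_one u with hu | hu <;>
        rcases Int.emod_two_eq_zero_or_one v with hv | hv
      · exfalso
        obtain ⟨u', rfl⟩ : ∃ u', u = 2 * u' := ⟨u / 2, by omega⟩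
        obtain ⟨v', rfl⟩ : ∃ v', v = 2 * v' := ⟨v / 2, by omega⟩
        have : 4 * ((n : ℤ) + 1 - u' ^ 2 - v' ^ 2 - 3 * w ^ 2 - 3 * w) = 3 := by
          linear_combination h
        omega
      · omega
      · omega
      · exfalso
        obtain ⟨u', rfl⟩ : ∃ u', u = 2 * u' + 1 := ⟨u / 2, by omega⟩
        obtain ⟨v', rfl⟩ : ∃ v', v = 2 * v' + 1 := ⟨v / 2, by omega⟩
        have : 4 * ((n : ℤ) + 1 - u' ^ 2 - u' - v' ^ 2 - v' - 3 * w ^ 2 - 3 * w) = 5 := by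
          linear_combination h
        omega
    obtain ⟨x, hx⟩ : ∃ x, u + v = 2 * x - 1 := ⟨(u + v + 1) / 2, by omega⟩
    obtain ⟨y, hy⟩ : ∃ y, u - v = 2 * y - 1 := ⟨(u - v + 1) / 2, by omega⟩
    obtain ⟨w, hw⟩ : ∃ w, z = 2 * w - 1 := ⟨(z + 1) / 2, by omega⟩
    refine ⟨x, y, w, ?_⟩
    have tx := tri x
    have ty := tri y
    have tw := tri w
    have hu : 2 * u = 2 * (x + y - 1) := by linarith
    have hu' : u = x + y - 1 := by linarith
    have hv' : v = x - y := by linarith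
    rw [hu', hv', hw] at h
    have : 8 * (n : ℤ) = 8 * (x * (x - 1) / 2 + y * (y - 1) / 2 + 6 * (w * (w - 1) / 2)) := by
      linear_combination 2 * h + 4 * tx + 4 * ty + 24 * tw
    linarith

end Pool.Agent.Results.MP_fb76f8_nt.TriangularOneOneSix
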